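import Mathlib

set_option autoImplicit false

/-!
# Tutte polynomials of small multigraphs by certified counting

A finite multigraph with vertex set `V` and edge set `E` is given by the map `ends : E → Sym2 V`
(loops and parallel edges are allowed).
-/

namespace Pool.Agent.X59.Tutte

/-- The number of connected components of the spanning subgraph `(V, A)`. -/
noncomputable def comps {V E : Type} (ends : E → Sym2 V) (A : Set E) : ℕ :=
  Nat.card (Quot fun u v : V => ∃ e ∈ A, ends e = s(u, v))

/-- `r(A) = |V| - k(V, A)`. -/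
noncomputable def rk {V E : Type} (ends : E → Sym2 V) (A : Set E) : ℕ :=
  Nat.card V - comps ends A

/-- The Tutte polynomial in the variables `x = X 0` and `y = X 1`. -/
noncomputable def tutte {V E : Type} (ends : E → Sym2 V) : MvPolynomial (Fin 2) ℤ :=
  ∑ᶠ A : Set E, (MvPolynomial.X 0 - 1) ^ (rk ends Set.univ - rk ends A) *
    (MvPolynomial.X 1 - 1) ^ (A.ncard - rk ends A)

/-- The simple graph underlying a multigraph. -/
def simple {V E : Type} (ends : E → Sym2 V) : SimpleGraph V :=
  SimpleGraph.fromRel fun u v => ∃ e, ends e = s(u, v)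

/-- The multigraph given by a list of pairs of ends. -/
def ofPairs {V : Type} {m : ℕ} (e : Fin m → V × V) : Fin m → Sym2 V :=
  fun i => s((e i).1, (e i).2)

section Classes

variable {V : Type}

theorem card_quot_congr {r r' : V → V → Prop}
    (h : ∀ a b, r a b → Quot.mk r' a = Quot.mk r' b)
    (h' : ∀ a b, r' a b → Quot.mk r a = Quot.mk r b) :
    Nat.card (Quot r) = Nat.card (Quot r') := by
  refine Nat.card_congr ⟨Quot.lift (Quot.mk r') h, Quot.lift (Quot.mk r) h', ?_, ?_⟩
  · rintro ⟨a⟩; rfl
  · rintro ⟨a⟩; rfl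

/-- Merging two different classes. -/
theorem card_merge [Finite V] {x y : V} (hxy : x ≠ y) :
    Nat.card (Quot fun p q : V => p = x ∧ q = y) + 1 = Nat.card V := by
  classical
  let f : Quot (fun p q : V => p = x ∧ q = y) → V :=
    Quot.lift (fun p => if p = y then x else p) (by
      rintro a b ⟨rfl, rfl⟩
      simp)
  have hf : Function.Injective f := by
    rintro ⟨a⟩ ⟨b⟩ h
    have h1 : ∀ a : V, Quot.mk (fun p q : V => p = x ∧ q = y) (if a = y then x else a) =
        Quot.mk _ a := by
      intro a
      by_cases ha : a = y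
      · rw [if_pos ha, ha]
        exact Quot.sound ⟨rfl, rfl⟩
      · rw [if_neg ha]
    have h2 : (if a = y then x else a) = (if b = y then x else b) := h
    have h3 := h1 a
    rw [h2, h1 b] at h3
    exact h3.symm
  have hr : Set.range f = {y}ᶜ := by
    ext z
    simp only [Set.mem_range, Set.mem_compl_iff, Set.mem_singleton_iff]
    constructor
    · rintro ⟨⟨a⟩, rfl⟩
      show (if a = y then x else a) ≠ y
      split_ifs with h
      · exact hxy
      · exact h
    · intro hz
      exact ⟨Quot.mk _ z, if_neg hz⟩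
  rw [Nat.card_congr (Equiv.ofInjective f hf), hr]
  have h1 := Set.ncard_add_ncard_compl ({y} : Set V)
  rw [Set.ncard_singleton] at h1
  rw [Nat.card_coe_set_eq]
  omega

end Classes

/-! ### Certified computation -/

/-- Replacing the label `b` by the label `a`. -/
def mergeL (st : List ℕ) (a b : ℕ) : List ℕ := st.map fun x => if x = b then a else x

/-- The generating number of the edge sets. -/
def tN (B : ℕ) : List (ℕ × ℕ) → List ℕ → ℕ → ℕ
  | [], _, c => B ^ (16 * c)
  | e :: es, st, c =>
    if st.getD e.1 0 = st.getD e.2 0 then (1 + B) * tN B es st c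
    else tN B es st c + B * tN B es (mergeL st (st.getD e.1 0) (st.getD e.2 0)) (c - 1)

section Compute

variable {n m : ℕ} (e : Fin m → Fin n × Fin n)

/-- The number of classes of the partition given by the labels `p` and the edges in `A`. -/
noncomputable def K (p : Fin n → ℕ) (A : Set (Fin m)) : ℕ :=
  Nat.card (Quot fun u v : Fin n => p u = p v ∨ ∃ i ∈ A, ofPairs e i = s(u, v))

variable {e}

theorem K_insert (p : Fin n → ℕ) (A : Set (Fin m)) (i : Fin m) :
    K e p (insert i A) =
      K e (fun w => if p w = p (e i).2 then p (e i).1 else p w) A := by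
  set u := (e i).1
  set v := (e i).2
  have hends : ofPairs e i = s(u, v) := rfl
  apply card_quot_congr
  · -- from the finer description
    have huv : Quot.mk (fun a b : Fin n => (fun w => if p w = p v then p u else p w) a =
        (fun w => if p w = p v then p u else p w) b ∨ ∃ i ∈ A, ofPairs e i = s(a, b)) u =
        Quot.mk _ v := by
      refine Quot.sound (Or.inl ?_)
      simp only [if_true]
      split_ifs <;> rfl
    rintro a b (h | ⟨j, hj, hab⟩)
    · refine Quot.sound (Or.inl ?_)
      simp only [h]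
    · rcases hj with rfl | hj
      · rw [hends] at hab
        rcases Sym2.eq_iff.1 hab with ⟨rfl, rfl⟩ | ⟨rfl, rfl⟩
        · exact huv
        · exact huv.symm
      · exact Quot.sound (Or.inr ⟨j, hj, hab⟩)
  · have huv : Quot.mk (fun a b : Fin n => p a = p b ∨ ∃ j ∈ insert i A,
        ofPairs e j = s(a, b)) u = Quot.mk _ v := Quot.sound (Or.inr ⟨i, Or.inl rfl, hends⟩)
    have hrep : ∀ w : Fin n, ∃ w', (if p w = p v then p u else p w) = p w' ∧
        Quot.mk (fun a b : Fin n => p a = p b ∨ ∃ j ∈ insert i A,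
          ofPairs e j = s(a, b)) w = Quot.mk _ w' := by
      intro w
      by_cases h : p w = p v
      · refine ⟨u, if_pos h, ?_⟩
        rw [huv]
        exact Quot.sound (Or.inl h)
      · exact ⟨w, if_neg h, rfl⟩
    rintro a b (h | ⟨j, hj, hab⟩)
    · obtain ⟨a', ha1, ha2⟩ := hrep a
      obtain ⟨b', hb1, hb2⟩ := hrep b
      rw [ha2, hb2]
      refine Quot.sound (Or.inl ?_)
      rw [← ha1, ← hb1]
      exact h
    · exact Quot.sound (Or.inr ⟨j, Or.inr hj, hab⟩)

theorem K_insert_loop (p : Fin n → ℕ) (A : Set (Fin m)) (i : Fin m)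
    (h : p (e i).1 = p (e i).2) : K e p (insert i A) = K e p A := by
  rw [K_insert]
  congr 1
  funext w
  split_ifs with h'
  · rw [h, h']
  · rfl

theorem K_merge (p : Fin n → ℕ) (i : Fin m) (h : p (e i).1 ≠ p (e i).2) :
    K e (fun w => if p w = p (e i).2 then p (e i).1 else p w) ∅ = K e p ∅ - 1 := by
  rw [← K_insert]
  have hne : Quot.mk (fun a b : Fin n => p a = p b ∨ ∃ j ∈ (∅ : Set (Fin m)),
      ofPairs e j = s(a, b)) (e i).1 ≠ Quot.mk _ (e i).2 := by
    intro hq
    have hl : ∀ a b : Fin n, (p a = p b ∨ ∃ j ∈ (∅ : Set (Fin m)), ofPairs e j = s(a, b)) →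
        p a = p b := by
      rintro a b (h | ⟨j, hj, _⟩)
      · exact h
      · exact absurd hj (Set.notMem_empty j)
    exact h (congrArg (Quot.lift p hl) hq)
  have h1 := card_merge hne
  have h2 : K e p (insert i ∅) = Nat.card (Quot fun x y : Quot (fun a b : Fin n =>
      p a = p b ∨ ∃ j ∈ (∅ : Set (Fin m)), ofPairs e j = s(a, b)) =>
      x = Quot.mk _ (e i).1 ∧ y = Quot.mk _ (e i).2) := by
    refine Nat.card_congr ⟨Quot.lift (fun a => Quot.mk _ (Quot.mk _ a)) ?_,
      Quot.lift (Quot.lift (Quot.mk _) ?_) ?_, ?_, ?_⟩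
    · rintro a b (h | ⟨j, hj, hab⟩)
      · exact congrArg _ (Quot.sound (Or.inl h))
      · rcases hj with rfl | hj
        · have hab' : s((e j).1, (e j).2) = s(a, b) := hab
          rcases Sym2.eq_iff.1 hab' with ⟨h1, h2⟩ | ⟨h1, h2⟩
          · rw [← h1, ← h2]
            exact Quot.sound ⟨rfl, rfl⟩
          · rw [← h1, ← h2]
            exact (Quot.sound ⟨rfl, rfl⟩ : _).symm
        · exact absurd hj (Set.notMem_empty j)
    · rintro a b (h | ⟨j, hj, _⟩)
      · exact Quot.sound (Or.inl h)
      · exact absurd hj (Set.notMem_empty j)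
    · rintro x y ⟨rfl, rfl⟩
      exact Quot.sound (Or.inr ⟨i, Or.inl rfl, rfl⟩)
    · rintro ⟨a⟩; rfl
    · rintro ⟨⟨a⟩⟩; rfl
  rw [h2]
  have h3 : K e p ∅ = Nat.card (Quot fun a b : Fin n => p a = p b ∨ ∃ j ∈ (∅ : Set (Fin m)),
      ofPairs e j = s(a, b)) := rfl
  omega

theorem sum_eq_tN (B : ℕ) (l : List (Fin m)) (hl : l.Nodup) : ∀ p : Fin n → ℕ,
    ∑ A ∈ l.toFinset.powerset, B ^ (16 * K e p (A : Set (Fin m)) + A.card) =
      tN B (l.map fun i => (((e i).1 : ℕ), ((e i).2 : ℕ))) ((List.finRange n).map p)
        (K e p ∅) := by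
  induction l with
  | nil =>
    intro p
    simp [tN]
  | cons i l ih =>
    intro p
    rw [List.nodup_cons] at hl
    have hget : ∀ u : Fin n, ((List.finRange n).map p).getD (u : ℕ) 0 = p u := by
      intro u
      simp [List.getD_eq_getElem?_getD]
    have hmem : i ∉ l.toFinset := by simpa using hl.1
    rw [List.toFinset_cons, Finset.sum_powerset_insert hmem]
    simp only [List.map_cons, tN, hget]
    have hcard : ∀ A ∈ l.toFinset.powerset, (insert i A).card = A.card + 1 := by
      intro A hA
      exact Finset.card_insert_of_notMem fun h => hmem (Finset.mem_powerset.1 hA h)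
    by_cases h : p (e i).1 = p (e i).2
    · rw [if_pos h, ← ih hl.2 p, add_mul, one_mul, Finset.mul_sum]
      congr 1
      apply Finset.sum_congr rfl
      intro A hA
      rw [hcard A hA, Finset.coe_insert, K_insert_loop p _ i h]
      ring
    · rw [if_neg h, ← ih hl.2 p]
      congr 1
      have h2 : mergeL ((List.finRange n).map p) (p (e i).1) (p (e i).2) =
          (List.finRange n).map (fun w => if p w = p (e i).2 then p (e i).1 else p w) := by
        unfold mergeL
        rw [List.map_map]
        rfl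
      rw [h2, ← K_merge p i h, ← ih hl.2, Finset.mul_sum]
      apply Finset.sum_congr rfl
      intro A hA
      rw [hcard A hA, Finset.coe_insert, K_insert]
      ring

theorem comps_eq_K (A : Set (Fin m)) : comps (ofPairs e) A = K e (fun w => (w : ℕ)) A := by
  apply card_quot_congr
  · intro a b h
    exact Quot.sound (Or.inr h)
  · rintro a b (h | h)
    · rw [Fin.ext h]
    · exact Quot.sound h

theorem K_id_empty : K e (fun w => (w : ℕ)) ∅ = n := by
  have : ∀ a b : Fin n, ((a : ℕ) = b ∨ ∃ i ∈ (∅ : Set (Fin m)), ofPairs e i = s(a, b)) →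
      a = b := by
    rintro a b (h | ⟨i, hi, _⟩)
    · exact Fin.ext h
    · exact absurd hi (Set.notMem_empty i)
  have h2 : Nat.card (Quot fun a b : Fin n => (a : ℕ) = b ∨ ∃ i ∈ (∅ : Set (Fin m)),
      ofPairs e i = s(a, b)) = Nat.card (Fin n) := by
    refine Nat.card_congr ⟨Quot.lift id this, Quot.mk _, ?_, ?_⟩
    · rintro ⟨a⟩; rfl
    · intro a; rfl
  exact h2.trans (by simp)

theorem total_eq_tN (B : ℕ) : ∑ A : Finset (Fin m),
    B ^ (16 * comps (ofPairs e) (A : Set (Fin m)) + A.card) =
      tN B ((List.finRange m).map fun i => (((e i).1 : ℕ), ((e i).2 : ℕ))) (List.range n) n := by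
  have h := sum_eq_tN (e := e) B (List.finRange m) (List.nodup_finRange m) (fun w => (w : ℕ))
  rw [K_id_empty, List.toFinset_finRange, Finset.powerset_univ] at h
  have h2 : (List.finRange n).map (fun w : Fin n => (w : ℕ)) = List.range n := by
    rw [List.map_coe_finRange_eq_range]
  rw [h2] at h
  rw [← h]
  apply Finset.sum_congr rfl
  intro A _
  rw [comps_eq_K]

end Compute

/-! ### Comparison of two multigraphs -/

theorem digits_unique (B : ℕ) : ∀ (M : ℕ) (N N' : ℕ → ℕ), (∀ k, N k < B) → (∀ k, N' k < B) →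
    ∑ k ∈ Finset.range M, N k * B ^ k = ∑ k ∈ Finset.range M, N' k * B ^ k →
    ∀ k < M, N k = N' k := by
  intro M
  induction M with
  | zero => intro N N' _ _ _ k hk; omega
  | succ M ih =>
    intro N N' h1 h2 h
    rw [Finset.sum_range_succ', Finset.sum_range_succ'] at h
    have e1 : ∀ N : ℕ → ℕ, ∑ k ∈ Finset.range M, N (k + 1) * B ^ (k + 1) =
        B * ∑ k ∈ Finset.range M, N (k + 1) * B ^ k := by
      intro N
      rw [Finset.mul_sum]
      apply Finset.sum_congr rfl
      intro k _
      ring
    rw [e1, e1, pow_zero, mul_one, mul_one] at h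
    have hB : 0 < B := lt_of_le_of_lt (Nat.zero_le _) (h1 0)
    have h3 := congrArg (fun x => x % B) h
    simp only [Nat.mul_add_mod, Nat.mod_eq_of_lt (h1 0), Nat.mod_eq_of_lt (h2 0)] at h3
    rw [h3] at h
    have h4 := Nat.eq_of_mul_eq_mul_left hB (Nat.add_right_cancel h)
    have h5 := ih (fun k => N (k + 1)) (fun k => N' (k + 1)) (fun k => h1 _) (fun k => h2 _) h4
    intro k hk
    cases k with
    | zero => exact h3
    | succ k => exact h5 k (by omega)

theorem sum_by_key {α : Type} [Fintype α] [DecidableEq α] {R : Type} [AddCommMonoid R]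
    (key : α → ℕ) (M : ℕ) (hM : ∀ a, key a < M) (g : ℕ → R) :
    ∑ a, g (key a) = ∑ k ∈ Finset.range M, (Finset.univ.filter fun a => key a = k).card • g k := by
  rw [← Finset.sum_fiberwise_of_maps_to (s := Finset.univ) (t := Finset.range M) (g := key)
    (fun a _ => Finset.mem_range.2 (hM a))]
  apply Finset.sum_congr rfl
  intro k _
  rw [Finset.sum_congr rfl (g := fun _ => g k), Finset.sum_const]
  intro a ha
  rw [(Finset.mem_filter.1 ha).2]

theorem card_key_lt {α : Type} [Fintype α] (key : α → ℕ) (B : ℕ) (hB : Fintype.card α < B)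
    (k : ℕ) : (Finset.univ.filter fun a => key a = k).card < B :=
  lt_of_le_of_lt (Finset.card_le_univ _) hB

/-- Two multigraphs with the same number of vertices and of edges and the same generating number
have the same Tutte polynomial. -/
theorem tutte_eq {n m : ℕ} (e f : Fin m → Fin n × Fin n) (hm : m < 16) (B : ℕ) (hB : 2 ^ m < B)
    (hc : comps (ofPairs e) Set.univ = comps (ofPairs f) Set.univ)
    (h : tN B ((List.finRange m).map fun i => (((e i).1 : ℕ), ((e i).2 : ℕ))) (List.range n) n =
      tN B ((List.finRange m).map fun i => (((f i).1 : ℕ), ((f i).2 : ℕ))) (List.range n) n) :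
    tutte (ofPairs e) = tutte (ofPairs f) := by
  classical
  rw [← total_eq_tN, ← total_eq_tN] at h
  have hle : ∀ (e : Fin m → Fin n × Fin n) (A : Set (Fin m)), comps (ofPairs e) A ≤ n := by
    intro e A
    have := Nat.card_le_card_of_surjective (Quot.mk (fun u v : Fin n => ∃ i ∈ A,
      ofPairs e i = s(u, v))) Quot.mk_surjective
    rw [Nat.card_eq_fintype_card (α := Fin n), Fintype.card_fin] at this
    exact this
  set M := 16 * (n + 1) with hM
  have hcardA : ∀ A : Finset (Fin m), A.card ≤ m := by
    intro A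
    simpa using Finset.card_le_univ A
  have hkey : ∀ (e : Fin m → Fin n × Fin n) (A : Finset (Fin m)),
      16 * comps (ofPairs e) (A : Set (Fin m)) + A.card < M := by
    intro e A
    have h1 := hle e (A : Set (Fin m))
    have h2 := hcardA A
    omega
  have h1 := sum_by_key (fun A : Finset (Fin m) => 16 * comps (ofPairs e) (A : Set (Fin m)) +
    A.card) M (hkey e) (fun k => B ^ k)
  have h2 := sum_by_key (fun A : Finset (Fin m) => 16 * comps (ofPairs f) (A : Set (Fin m)) +
    A.card) M (hkey f) (fun k => B ^ k)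
  rw [h1, h2] at h
  simp only [smul_eq_mul] at h
  have hcardF : Fintype.card (Finset (Fin m)) < B := by
    rw [Fintype.card_finset, Fintype.card_fin]
    exact hB
  have h3 := digits_unique B M _ _ (fun k => card_key_lt _ B hcardF k)
    (fun k => card_key_lt _ B hcardF k) h
  have hT : ∀ (e : Fin m → Fin n × Fin n), tutte (ofPairs e) = ∑ A : Finset (Fin m),
      (fun k : ℕ => ((MvPolynomial.X 0 - 1) ^ ((n - comps (ofPairs e) Set.univ) - (n - k / 16)) *
        (MvPolynomial.X 1 - 1) ^ (k % 16 - (n - k / 16)) : MvPolynomial (Fin 2) ℤ))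
        (16 * comps (ofPairs e) (A : Set (Fin m)) + A.card) := by
    intro e
    unfold tutte
    rw [finsum_eq_sum_of_fintype]
    refine Finset.sum_nbij' (fun A => A.toFinset) (fun A => (A : Set (Fin m))) (by simp) (by simp)
      (by simp) (by simp) ?_
    intro A _
    have h4 := hcardA A.toFinset
    have h5 : (16 * comps (ofPairs e) ((A.toFinset : Finset (Fin m)) : Set (Fin m)) +
        A.toFinset.card) / 16 = comps (ofPairs e) A := by
      rw [Set.coe_toFinset]
      omega
    have h6 : (16 * comps (ofPairs e) ((A.toFinset : Finset (Fin m)) : Set (Fin m)) +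
        A.toFinset.card) % 16 = A.ncard := by
      rw [Set.coe_toFinset, Set.ncard_eq_toFinset_card']
      omega
    simp only [h5, h6]
    unfold rk
    rw [Nat.card_eq_fintype_card (α := Fin n), Fintype.card_fin]
  have hs : ∀ (e : Fin m → Fin n × Fin n) (g : ℕ → MvPolynomial (Fin 2) ℤ),
      ∑ A : Finset (Fin m), g (16 * comps (ofPairs e) (A : Set (Fin m)) + A.card) =
      ∑ k ∈ Finset.range M, (Finset.univ.filter fun A : Finset (Fin m) =>
        16 * comps (ofPairs e) (A : Set (Fin m)) + A.card = k).card • g k := fun e g =>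
    sum_by_key (fun A : Finset (Fin m) => 16 * comps (ofPairs e) (A : Set (Fin m)) +
      A.card) M (hkey e) g
  let g : ℕ → MvPolynomial (Fin 2) ℤ := fun k =>
    (MvPolynomial.X 0 - 1) ^ ((n - comps (ofPairs e) Set.univ) - (n - k / 16)) *
      (MvPolynomial.X 1 - 1) ^ (k % 16 - (n - k / 16))
  have e1 : tutte (ofPairs e) = ∑ A : Finset (Fin m),
      g (16 * comps (ofPairs e) (A : Set (Fin m)) + A.card) := hT e
  have e2 : tutte (ofPairs f) = ∑ A : Finset (Fin m),
      g (16 * comps (ofPairs f) (A : Set (Fin m)) + A.card) := by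
    rw [hT f, ← hc]
  rw [e1, e2, hs e g, hs f g]
  apply Finset.sum_congr rfl
  intro k hk
  rw [h3 k (Finset.mem_range.1 hk)]

/-- Connected multigraphs have one component. -/
theorem comps_univ {V E : Type} (ends : E → Sym2 V) (h : (simple ends).Connected) :
    comps ends Set.univ = 1 := by
  have hone : ∀ u v : V, Quot.mk (fun u v : V => ∃ e ∈ (Set.univ : Set E), ends e = s(u, v)) u =
      Quot.mk _ v := by
    intro u v
    obtain ⟨w⟩ := h.preconnected u v
    induction w with
    | nil => rfl
    | cons hadj _ ih =>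
      rw [← ih]
      unfold simple at hadj
      rw [SimpleGraph.fromRel_adj] at hadj
      rcases hadj.2 with ⟨e, he⟩ | ⟨e, he⟩
      · exact Quot.sound ⟨e, trivial, he⟩
      · exact (Quot.sound ⟨e, trivial, he⟩ : _).symm
  obtain ⟨v⟩ := h.nonempty
  refine Nat.card_eq_one_iff_unique.2 ⟨⟨?_⟩, ⟨Quot.mk _ v⟩⟩
  rintro ⟨a⟩ ⟨b⟩
  exact hone a b

end Pool.Agent.X59.Tutte
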